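import Pool.Agent.Q33.BinSum

set_option autoImplicit false

namespace Pool.Agent.Results.MP_97e2c3_nt.OddPowersFourN

open Finset

/-- `f_n^{(r)} = ∑_{k ≤ n} C(n,k)^r`. -/
def f (r n : ℕ) : ℕ := ∑ k ∈ range (n + 1), n.choose k ^ r

/-- For all `n > 1` and `r ≥ 0`, `4n` divides `∑_{k<n} (-1)^k (3k+2) f_k^{(2r+1)}`. -/
theorem result : ∀ n r : ℕ, 1 < n →
    (4 * n : ℤ) ∣ ∑ k ∈ range n, (-1 : ℤ) ^ k * (3 * k + 2) * (f (2 * r + 1) k : ℤ) := by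
  intro n r hn
  have h := Pool.Agent.Q33.BinSum.criterion_two (r := 2 * r + 1) ⟨r, rfl⟩
    (m := ((2 : ℕ) : ℤ)) (by norm_num)
    (fun k => ((((2 : ℕ) : ℤ) + 1) * k + (2 : ℕ)) *
      (Pool.Agent.Q33.BinSum.M 2 k (2 * r + 1) : ℤ))
    (fun j => (Pool.Agent.Q33.BinSum.M (2 + 1) j (2 * r + 1) : ℤ))
    (fun j => Pool.Agent.Q33.BinSum.M_three_odd j (by omega))
    (fun j => Pool.Agent.Q33.BinSum.symm_identity 2 j (2 * r + 1)) hn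
  have e : ∑ k ∈ range n, (-1 : ℤ) ^ k * (3 * k + 2) * (f (2 * r + 1) k : ℤ)
      = ∑ k ∈ range n, (-1) ^ ((2 * r + 1) * k) * (((((2 : ℕ) : ℤ) + 1) * k + (2 : ℕ)) *
        (Pool.Agent.Q33.BinSum.M 2 k (2 * r + 1) : ℤ)) := by
    refine Finset.sum_congr rfl fun k _ => ?_
    rw [Pool.Agent.Q33.BinSum.M_two, f]
    have : (-1 : ℤ) ^ ((2 * r + 1) * k) = (-1) ^ k := by
      rw [pow_mul, Odd.neg_one_pow ⟨r, rfl⟩]
    rw [this]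
    push_cast
    ring
  rw [e]
  have e2 : (4 * n : ℤ) = ((2 : ℕ) : ℤ) * (2 * n) := by push_cast; ring
  rw [e2]
  exact h

end Pool.Agent.Results.MP_97e2c3_nt.OddPowersFourN
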